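import Pool.Agent.Helper88.EL.Basic

/-!
# The lattices of frames (MP_287ff4_al, module EL-FRLAT)
-/

set_option autoImplicit false

namespace Pool.Agent.Helper92.EL

open LaurentPolynomial Matrix Pool.Agent.Helper88.EL

/-! ### common denominators -/

theorem nsmul_eq_C_mul (n : ℕ) (f : AQ) : n • f = (C (n : ℚ) : AQ) * f := by
  rw [nsmul_eq_mul]; simp

theorem coeff_nsmul' (n : ℕ) (f : AQ) (m : ℤ) : (n • f).coeff m = n * f.coeff m := by
  rw [nsmul_eq_C_mul, coeff_C_mul]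

theorem exists_nsmul_isInt (f : AQ) : ∃ n : ℕ, 0 < n ∧ IsInt (n • f) := by
  classical
  refine ⟨∏ m ∈ f.coeff.support, (f.coeff m).den,
    Finset.prod_pos fun m _ => (f.coeff m).den_pos, fun m => ?_⟩
  by_cases hm : m ∈ f.coeff.support
  · obtain ⟨k, hk⟩ := Finset.dvd_prod_of_mem (fun m => (f.coeff m).den) hm
    refine ⟨k * (f.coeff m).num, ?_⟩
    rw [coeff_nsmul', hk]
    have h1 : (((f.coeff m).den : ℚ)) * f.coeff m = (f.coeff m).num := Rat.den_mul_eq_num _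
    push_cast
    linear_combination (k : ℚ) * h1
  · refine ⟨0, ?_⟩
    rw [Finsupp.mem_support_iff, not_not] at hm
    rw [coeff_nsmul', hm]
    simp

theorem IsInt.nsmul {f : AQ} (n : ℕ) (hf : IsInt f) : IsInt (n • f) := by
  rw [nsmul_eq_C_mul]
  exact (isInt_C_int n).mul hf

theorem tors_A2 (p : V) : ∃ n : ℕ, 0 < n ∧ n • p ∈ A2 := by
  obtain ⟨a, ha, ha'⟩ := exists_nsmul_isInt (p 0)
  obtain ⟨b, hb, hb'⟩ := exists_nsmul_isInt (p 1)
  refine ⟨a * b, Nat.mul_pos ha hb, ?_⟩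
  rw [mem_A2']
  constructor
  · have h := IsInt.nsmul b ha'
    rw [smul_smul, mul_comm] at h
    exact h
  · have h := IsInt.nsmul a hb'
    rw [smul_smul] at h
    exact h

/-! ### primes -/

theorem coeff_iQ_dvd {l : ℕ} {F : LaurentPolynomial ℤ} (h : ∀ n, (l : ℤ) ∣ F.coeff n) :
    ∃ f', IsInt f' ∧ iQ F = l • f' := by
  choose a ha using h
  by_cases hl : l = 0
  · subst hl
    refine ⟨0, IsInt.zero, ?_⟩
    ext n
    rw [coeff_iQ, ha n, coeff_nsmul']
    simp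
  refine ⟨iQ (AddMonoidAlgebra.ofCoeff (Finsupp.onFinset F.coeff.support a ?_)), isInt_iQ _, ?_⟩
  · intro n hn
    rw [Finsupp.mem_support_iff, ha]
    have : (l : ℤ) ≠ 0 := by exact_mod_cast hl
    exact mul_ne_zero this hn
  · ext n
    rw [coeff_iQ, ha n, coeff_nsmul', coeff_iQ]
    simp

theorem prime_laurent {l : ℕ} (hl : l.Prime) {F G H : LaurentPolynomial ℤ} (h : F * G = l * H) :
    (∀ n, (l : ℤ) ∣ F.coeff n) ∨ (∀ n, (l : ℤ) ∣ G.coeff n) := by
  have : Fact l.Prime := ⟨hl⟩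
  set φ : LaurentPolynomial ℤ →+* LaurentPolynomial (ZMod l) :=
    AddMonoidAlgebra.mapRingHom ℤ (Int.castRingHom (ZMod l)) with hφ
  have hc : ∀ (F : LaurentPolynomial ℤ) (n : ℤ), (φ F).coeff n = (F.coeff n : ZMod l) := by
    intro F n
    simp [hφ]
  have h1 : φ F * φ G = 0 := by
    rw [← map_mul, h, map_mul, map_natCast]
    have : ((l : ℕ) : LaurentPolynomial (ZMod l)) = 0 := by
      have h2 : ((l : ℕ) : LaurentPolynomial (ZMod l)) = C ((l : ℕ) : ZMod l) :=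
        (map_natCast C l).symm
      rw [h2, ZMod.natCast_self, map_zero]
    rw [this, zero_mul]
  rcases mul_eq_zero.mp h1 with h2 | h2
  · left
    intro n
    have h3 := hc F n
    rw [h2] at h3
    rw [← ZMod.intCast_zmod_eq_zero_iff_dvd]
    simpa using h3.symm
  · right
    intro n
    have h3 := hc G n
    rw [h2] at h3
    rw [← ZMod.intCast_zmod_eq_zero_iff_dvd]
    simpa using h3.symm

theorem prime_A2 (l : ℕ) (hl : l.Prime) (f : AQ) (hf : IsInt f) (w w' : V) (hw : w ∈ A2)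
    (hw' : w' ∈ A2) (h : f • w = l • w') :
    (∃ f', IsInt f' ∧ f = l • f') ∨ (∃ w' ∈ A2, w = l • w') := by
  obtain ⟨F, rfl⟩ := isInt_iff.1 hf
  obtain ⟨W0, hW0⟩ := isInt_iff.1 (hw 0)
  obtain ⟨W1, hW1⟩ := isInt_iff.1 (hw 1)
  obtain ⟨Y0, hY0⟩ := isInt_iff.1 (hw' 0)
  obtain ⟨Y1, hY1⟩ := isInt_iff.1 (hw' 1)
  have h0 : F * W0 = l * Y0 := by
    apply iQ_injective
    rw [map_mul, map_mul, hW0, hY0, map_natCast]
    have := congrFun h 0
    simpa using this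
  have h1 : F * W1 = l * Y1 := by
    apply iQ_injective
    rw [map_mul, map_mul, hW1, hY1, map_natCast]
    have := congrFun h 1
    simpa using this
  rcases prime_laurent hl h0 with h2 | h2
  · exact Or.inl (coeff_iQ_dvd h2)
  · rcases prime_laurent hl h1 with h3 | h3
    · exact Or.inl (coeff_iQ_dvd h3)
    · right
      obtain ⟨a, ha, ha'⟩ := coeff_iQ_dvd h2
      obtain ⟨b, hb, hb'⟩ := coeff_iQ_dvd h3
      rw [hW0] at ha'
      rw [hW1] at hb'
      refine ⟨![a, b], ?_, ?_⟩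
      · rw [mem_A2']
        exact ⟨ha, hb⟩
      · ext i : 1
        fin_cases i
        · simpa using ha'
        · simpa using hb'

/-! ### the direct properties -/

theorem lat_smul (g : M2) (f : AQ) (hf : IsInt f) (p : V) (hp : p ∈ Lat g) : f • p ∈ Lat g := by
  rw [mem_Lat, Matrix.mulVec_smul]
  intro i
  exact hf.mul (hp i)

theorem dt_mulVec (g : M2) (p q : V) : dt (g.mulVec p) (g.mulVec q) = g.det * dt p q := by
  simp only [dt, Matrix.mulVec, dotProduct, Fin.sum_univ_two, Matrix.det_fin_two]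
  ring

theorem isInt_of_T_mul {k : ℤ} {f : AQ} (h : IsInt (T k * f)) : IsInt f := by
  have := (isInt_T (-k)).mul h
  rwa [← mul_assoc, ← T_add, neg_add_cancel, T_zero, one_mul] at this

theorem lat_det {g : M2} (hg : IsFr g) (p q : V) (hp : p ∈ Lat g) (hq : q ∈ Lat g) :
    IsInt (dt p q) := by
  obtain ⟨k, hk⟩ := hg
  apply isInt_of_T_mul (k := k)
  rw [← hk, ← dt_mulVec]
  rw [dt]
  exact ((hp 0).mul (hq 1)).sub ((hp 1).mul (hq 0))

theorem lat_tors (g : M2) (p : V) : ∃ n : ℕ, 0 < n ∧ n • p ∈ Lat g := by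
  obtain ⟨n, hn, hn'⟩ := tors_A2 (g.mulVec p)
  refine ⟨n, hn, ?_⟩
  rw [mem_Lat, Matrix.mulVec_smul]
  exact hn'

theorem lat_prime (g : M2) (l : ℕ) (hl : l.Prime) (f : AQ) (hf : IsInt f) (w : V)
    (hw : w ∈ Lat g) (h : ∃ w' ∈ Lat g, f • w = l • w') :
    (∃ f', IsInt f' ∧ f = l • f') ∨ (∃ w' ∈ Lat g, w = l • w') := by
  obtain ⟨w', hw', h⟩ := h
  have h1 : f • g.mulVec w = l • g.mulVec w' := by
    rw [← Matrix.mulVec_smul, h, Matrix.mulVec_smul]
  rcases prime_A2 l hl f hf _ _ hw hw' h1 with h2 | ⟨y, hy, h2⟩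
  · exact Or.inl h2
  · right
    change g.mulVec w = l • y at h2
    have hl0 : (l : ℚ) ≠ 0 := by exact_mod_cast hl.ne_zero
    refine ⟨(C ((l : ℚ)⁻¹) : AQ) • w, ?_, ?_⟩
    · rw [mem_Lat, Matrix.mulVec_smul, h2]
      have h3 : (C ((l : ℚ)⁻¹) : AQ) • (l • y) = y := by
        ext i : 1
        simp only [Pi.smul_apply, smul_eq_mul]
        rw [nsmul_eq_C_mul, ← mul_assoc, ← map_mul, inv_mul_cancel₀ hl0, map_one, one_mul]
      rw [h3]
      exact hy
    · ext i : 1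
      simp only [Pi.smul_apply, smul_eq_mul]
      rw [nsmul_eq_C_mul, ← mul_assoc, ← map_mul, mul_inv_cancel₀ hl0, map_one, one_mul]

theorem isLat_mk {g : M2} (hg : IsFr g) (h0 : Cov1 (E0 (Lat g))) (h1 : Cov1 (Ei (Lat g)))
    (h2 : tt (Lat g) ≠ 0) : IsLat (Lat g) where
  smul := lat_smul g
  det := fun p hp q hq => lat_det hg p q hp hq
  tors := lat_tors g
  prime := fun l hl f hf w hw h => lat_prime g l hl f hf w hw h
  cov0 := h0
  covi := h1
  fin := h2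

/-! ### the standard lattice -/

theorem eq_int_smul_iff (v : Q2) :
    (∃ m n : ℤ, v = (m : ℚ) • e1 + (n : ℚ) • e2) ↔ ∀ i, ∃ m : ℤ, v i = m := by
  constructor
  · rintro ⟨m, n, rfl⟩ i
    fin_cases i
    · exact ⟨m, by simp [e1, e2]⟩
    · exact ⟨n, by simp [e1, e2]⟩
  · intro h
    obtain ⟨m, hm⟩ := h 0
    obtain ⟨n, hn⟩ := h 1
    refine ⟨m, n, ?_⟩
    ext i
    fin_cases i
    · simp [e1, e2, hm]
    · simp [e1, e2, hn]

theorem cst_mem_A2 {v : Q2} (h : ∀ i, ∃ m : ℤ, v i = m) : cst v ∈ A2 := by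
  intro i
  rw [cst_apply, isInt_C_iff]
  exact h i

theorem cov_E0_A2 : Cov1 (E0 A2) := by
  refine ⟨e1, e2, dq_e1_e2, fun v => ?_⟩
  rw [eq_int_smul_iff]
  constructor
  · rintro ⟨p, hp, -, h⟩ i
    obtain ⟨m, hm⟩ := hp i 0
    exact ⟨m, by rw [← h, hm]⟩
  · intro h
    exact E0_lam (cst_mem_A2 h)

theorem cov_Ei_A2 : Cov1 (Ei A2) := by
  refine ⟨e1, e2, dq_e1_e2, fun v => ?_⟩
  rw [eq_int_smul_iff]
  constructor
  · rintro ⟨p, hp, -, h⟩ i
    obtain ⟨m, hm⟩ := hp i 0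
    exact ⟨m, by rw [← h, hm]⟩
  · intro h
    exact Ei_lam (cst_mem_A2 h)

theorem isInt_tr {f : AQ} (n : ℤ) (h : IsInt f) : IsInt (tr n f) := by
  intro m
  rw [coeff_tr]
  split_ifs
  · exact h m
  · exact ⟨0, by simp⟩

theorem tt_A2 : tt A2 = 1 := by
  rw [tt, AddSubgroup.relIndex_eq_one]
  intro p hp
  rw [AddSubgroup.mem_comap, mem_A2']
  exact ⟨isInt_tr 0 (hp 0), isInt_tr 0 (hp 1)⟩

/-! ### scalars -/

theorem Lat_T_smul (n : ℤ) (g : M2) : Lat ((T n : AQ) • g) = Lat g := by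
  ext p
  rw [mem_Lat, mem_Lat, Matrix.smul_mulVec]
  constructor
  · intro h i
    exact isInt_of_T_mul (h i)
  · intro h i
    exact (isInt_T n).mul (h i)

theorem dq_J : dq e2 (-e1) = 1 := by simp [dq, e1, e2]
theorem dq_J' : dq (-e2) e1 = 1 := by simp [dq, e1, e2]

theorem Dm_neg_one : (Dm (-1) : M2) = (T (-1) : AQ) • (bas e2 (-e1) * Dm 1 * bas (-e2) e1) := by
  have h : (T (-1) : AQ) * T 1 = 1 := by rw [← T_add]; simp
  ext i j : 2
  fin_cases i <;> fin_cases j <;>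
    simp [Dm, bas, e1, e2, h]

/-- **The lattices of frames.** -/
theorem latFr : DStepStmt → BasStmt → CovBasicStmt → FrIndStmt → LatFrStmt := by
  intro hD hB hC hI
  have dstep : ∀ g, IsFr g ∧ IsLat (Lat g) → IsFr (g * Dm 1) ∧ IsLat (Lat (g * Dm 1)) := by
    rintro g ⟨hg, hL⟩
    obtain ⟨a, ha, ha'⟩ := (hC _ hL.cov0).1 e1 e1_ne_zero
    obtain ⟨b, hb, hb'⟩ := (hC _ hL.covi).1 e2 e2_ne_zero
    obtain ⟨h1, h2, h3⟩ := hD _ hL a b ha hb ha' hb'
    refine ⟨hg.mul_Dm 1, isLat_mk (hg.mul_Dm 1) ?_ ?_ ?_⟩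
    · rw [Lat_mul]; exact h1
    · rw [Lat_mul]; exact h2
    · rw [Lat_mul]
      intro h0
      rw [h0, Nat.cast_zero] at h3
      have h4 : (tt (Lat g) : ℚ) ≠ 0 := by exact_mod_cast hL.fin
      exact (mul_ne_zero (mul_ne_zero ha.ne' hb.ne') h4) h3.symm
  have key : ∀ g, IsFr g → IsFr g ∧ IsLat (Lat g) := by
    apply hI (fun g => IsFr g ∧ IsLat (Lat g))
    · refine ⟨isFr_one, ?_⟩
      have h : Lat 1 = A2 := Lat_one
      apply isLat_mk isFr_one
      · rw [h]; exact cov_E0_A2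
      · rw [h]; exact cov_Ei_A2
      · rw [h, tt_A2]; exact one_ne_zero
    · rintro g u u' hu ⟨hg, hL⟩
      refine ⟨hg.mul_bas hu, ?_⟩
      rw [Lat_mul]
      exact (hB _ hL u u' hu).1
    · exact fun g h => dstep g h
    · rintro g hg
      have h1 : IsFr (g * bas e2 (-e1)) ∧ IsLat (Lat (g * bas e2 (-e1))) := by
        refine ⟨hg.1.mul_bas dq_J, ?_⟩
        rw [Lat_mul]
        exact (hB _ hg.2 _ _ dq_J).1
      have h2 := dstep _ h1
      have h3 : IsLat (Lat (g * bas e2 (-e1) * Dm 1 * bas (-e2) e1)) := by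
        rw [Lat_mul]
        exact (hB _ h2.2 _ _ dq_J').1
      refine ⟨hg.1.mul_Dm (-1), ?_⟩
      have h4 : g * Dm (-1) = (T (-1) : AQ) • (g * bas e2 (-e1) * Dm 1 * bas (-e2) e1) := by
        rw [Dm_neg_one, Matrix.mul_smul]
        simp only [Matrix.mul_assoc]
      rw [h4, Lat_T_smul]
      exact h3
  exact fun g hg => (key g hg).2

end Pool.Agent.Helper92.EL
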